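import Mathlib
import Pool.Agent.Helper32.CL.St2

/-!
Module GC of project CL (MP_b2fa09_gt): the field at the centre of a graph.
-/

set_option autoImplicit false

namespace Pool.Agent.Helper62.CL

open Helper32.CL Helper35.PI Helper35.PI2
open scoped ContDiff Manifold Topology ENNReal BigOperators
open MeasureTheory Set Filter

variable {n N : ℕ}

/-- derivative of a slice -/
lemma slice_fderiv {V : Type*} [NormedAddCommGroup V] [NormedSpace ℝ V]
    {φ : EE n × ℝ → V} {x : EE n} {t : ℝ} (h : DifferentiableAt ℝ φ (x, t)) (k : Fin n) :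
    fderiv ℝ (fun y => φ (y, t)) x (ee k) = jg φ (x, t) k := by
  have h1 : HasFDerivAt (fun y : EE n => (y, t)) (ContinuousLinearMap.inl ℝ (EE n) ℝ) x :=
    hasFDerivAt_prodMk_left x t
  have h2 : HasFDerivAt (fun y => φ (y, t))
      ((fderiv ℝ φ (x, t)).comp (ContinuousLinearMap.inl ℝ (EE n) ℝ)) x :=
    (h.hasFDerivAt).comp x h1
  rw [h2.fderiv]
  simp [jg]

/-- spatial derivatives of a smooth function are smooth -/
lemma jg_contDiffAt {V : Type*} [NormedAddCommGroup V] [NormedSpace ℝ V]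
    {φ : EE n × ℝ → V} {z : EE n × ℝ} {m : WithTop ℕ∞} {m' : WithTop ℕ∞}
    (h : ContDiffAt ℝ m φ z) (hm : m' + 1 ≤ m) (k : Fin n) :
    ContDiffAt ℝ m' (fun z' => jg φ z' k) z := by
  unfold jg
  exact (h.fderiv_right hm).clm_apply contDiffAt_const

lemma slice_tendsto (t : ℝ) : Tendsto (fun x : EE n => (x, t)) (𝓝 0) (𝓝 (0, t)) := by
  have : Continuous (fun x : EE n => (x, t)) := by fun_prop
  exact this.tendsto 0

lemma inner_ee (L : EE n →ₗᵢ[ℝ] EE N) (i j : Fin n) :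
    (inner ℝ (L (ee i)) (L (ee j)) : ℝ) = if i = j then 1 else 0 := by
  rw [L.inner_map_map]
  unfold ee
  rw [EuclideanSpace.inner_single_left, PiLp.single_apply]
  simp

section jets

variable {V V' : Type*} [NormedAddCommGroup V] [NormedSpace ℝ V]
  [NormedAddCommGroup V'] [NormedSpace ℝ V'] {z : EE n × ℝ}

lemma jg_add {φ ψ : EE n × ℝ → V} (h : DifferentiableAt ℝ φ z) (h' : DifferentiableAt ℝ ψ z)
    (k : Fin n) : jg (fun z => φ z + ψ z) z k = jg φ z k + jg ψ z k := by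
  show fderiv ℝ (fun z => φ z + ψ z) z (ee k, 0) = _
  have e : HasFDerivAt (fun z => φ z + ψ z) (fderiv ℝ φ z + fderiv ℝ ψ z) z :=
    h.hasFDerivAt.add h'.hasFDerivAt
  rw [e.fderiv]
  rfl

lemma jg_mul {φ ψ : EE n × ℝ → ℝ} (h : DifferentiableAt ℝ φ z) (h' : DifferentiableAt ℝ ψ z)
    (k : Fin n) : jg (fun z => φ z * ψ z) z k = jg φ z k * ψ z + φ z * jg ψ z k := by
  show fderiv ℝ (fun z => φ z * ψ z) z (ee k, 0) = _
  have e : HasFDerivAt (fun z => φ z * ψ z) (φ z • fderiv ℝ ψ z + ψ z • fderiv ℝ φ z) z :=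
    h.hasFDerivAt.mul h'.hasFDerivAt
  rw [e.fderiv]
  simp [jg]
  ring

lemma jg_cmul {φ : EE n × ℝ → ℝ} (c : ℝ) (h : DifferentiableAt ℝ φ z)
    (k : Fin n) : jg (fun z => c * φ z) z k = c * jg φ z k := by
  show fderiv ℝ (fun z => c * φ z) z (ee k, 0) = _
  rw [(h.hasFDerivAt.const_mul c : HasFDerivAt (fun z => c * φ z) _ z).fderiv]
  simp [jg]

lemma jg_smul {φ : EE n × ℝ → ℝ} {ψ : EE n × ℝ → V} (h : DifferentiableAt ℝ φ z)
    (h' : DifferentiableAt ℝ ψ z)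
    (k : Fin n) : jg (fun z => φ z • ψ z) z k = jg φ z k • ψ z + φ z • jg ψ z k := by
  show fderiv ℝ (fun z => φ z • ψ z) z (ee k, 0) = _
  have e : HasFDerivAt (fun z => φ z • ψ z) (φ z • fderiv ℝ ψ z
      + (fderiv ℝ φ z).smulRight (ψ z)) z := h.hasFDerivAt.smul h'.hasFDerivAt
  rw [e.fderiv]
  simp [jg, add_comm]

lemma jg_inner {φ ψ : EE n × ℝ → EE N} (h : DifferentiableAt ℝ φ z)
    (h' : DifferentiableAt ℝ ψ z) (k : Fin n) :
    jg (fun z => (inner ℝ (φ z) (ψ z) : ℝ)) z k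
      = inner ℝ (jg φ z k) (ψ z) + inner ℝ (φ z) (jg ψ z k) := by
  show fderiv ℝ (fun z => (inner ℝ (φ z) (ψ z) : ℝ)) z (ee k, 0) = _
  rw [fderiv_inner_apply ℝ h h']
  simp [jg, add_comm]

lemma jg_sum {m : ℕ} {φ : Fin m → EE n × ℝ → V} (h : ∀ i, DifferentiableAt ℝ (φ i) z)
    (k : Fin n) : jg (fun z => ∑ i, φ i z) z k = ∑ i, jg (φ i) z k := by
  show fderiv ℝ (fun z => ∑ i, φ i z) z (ee k, 0) = _
  rw [(HasFDerivAt.fun_sum fun i _ => (h i).hasFDerivAt : HasFDerivAt (fun z => ∑ i, φ i z) _ z).fderiv]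
  simp [jg]

lemma jg_exp {φ : EE n × ℝ → ℝ} (h : DifferentiableAt ℝ φ z) (k : Fin n) :
    jg (fun z => Real.exp (φ z)) z k = Real.exp (φ z) * jg φ z k := by
  show fderiv ℝ (fun z => Real.exp (φ z)) z (ee k, 0) = _
  rw [(h.hasFDerivAt.exp : HasFDerivAt (fun z => Real.exp (φ z)) _ z).fderiv]
  simp [jg]

lemma jg_pair {φ : EE n × ℝ → V} {ψ : EE n × ℝ → V'} (h : DifferentiableAt ℝ φ z)
    (h' : DifferentiableAt ℝ ψ z) (k : Fin n) :
    jg (fun z => (φ z, ψ z)) z k = (jg φ z k, jg ψ z k) := by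
  show fderiv ℝ (fun z => (φ z, ψ z)) z (ee k, 0) = _
  rw [(h.hasFDerivAt.prodMk h'.hasFDerivAt).fderiv]
  rfl

lemma jt_pair {φ : EE n × ℝ → V} {ψ : EE n × ℝ → V'} (h : DifferentiableAt ℝ φ z)
    (h' : DifferentiableAt ℝ ψ z) :
    jt (fun z => (φ z, ψ z)) z = (jt φ z, jt ψ z) := by
  show fderiv ℝ (fun z => (φ z, ψ z)) z (0, 1) = _
  rw [(h.hasFDerivAt.prodMk h'.hasFDerivAt).fderiv]
  rfl

lemma jh_pair {φ : EE n × ℝ → V} {ψ : EE n × ℝ → V'} (h : ContDiffAt ℝ 2 φ z)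
    (h' : ContDiffAt ℝ 2 ψ z) :
    jh (fun z => (φ z, ψ z)) z = (jh φ z, jh ψ z) := by
  have h1 : ∀ k, jgg (fun z => (φ z, ψ z)) z k k = (jgg φ z k k, jgg ψ z k k) := by
    intro k
    have e : (fun z' => jg (fun z => (φ z, ψ z)) z' k) =ᶠ[𝓝 z]
        fun z' => (jg φ z' k, jg ψ z' k) := by
      filter_upwards [(h.of_le (by norm_num : (1 : WithTop ℕ∞) ≤ 2)).eventually (by norm_num),
        (h'.of_le (by norm_num : (1 : WithTop ℕ∞) ≤ 2)).eventually (by norm_num)] with z' hz hz'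
      exact jg_pair (hz.differentiableAt (by norm_num)) (hz'.differentiableAt (by norm_num)) k
    show fderiv ℝ (fun z' => jg (fun z => (φ z, ψ z)) z' k) z (ee k, 0) = _
    rw [e.fderiv_eq]
    exact jg_pair ((jg_contDiffAt (m' := 1) h (by norm_num) k).differentiableAt (by norm_num))
      ((jg_contDiffAt (m' := 1) h' (by norm_num) k).differentiableAt (by norm_num)) k
  unfold jh
  rw [jt_pair (h.differentiableAt (by norm_num)) (h'.differentiableAt (by norm_num)),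
    Finset.sum_congr rfl fun k _ => h1 k]
  ext
  · simp [Prod.fst_sum]
  · simp [Prod.snd_sum]

end jets

/-- the field of a covector -/
theorem field (hG0 : StG0) (hG1 : StG1) (hG2 : StG2) {x₀ : EE N} {L : EE n →ₗᵢ[ℝ] EE N}
    {u : EE n × ℝ → EE N} {t₀ : ℝ} (hu : GraphSol x₀ L u t₀) (w : EE n → Fin n → ℝ)
    (W : Fin n → EE n × ℝ → ℝ) (hWd : ∀ k, DifferentiableAt ℝ (W k) (0, t₀))
    (hev0 : ∀ᶠ x in 𝓝 (0 : EE n), ∀ k, w x k = W k (x, t₀)) (F : EE n → EE N)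
    (hF : ∀ x, F x = ∑ k, ∑ l, ((gram (grf x₀ L u t₀) x)⁻¹ k l * w x k) •
      dv1 (grf x₀ L u t₀) x l) :
    F 0 = ∑ k, W k (0, t₀) • L (ee k) ∧
    dvc (grf x₀ L u t₀) F 0 = ∑ i, jg (W i) (0, t₀) i := by
  have h2 := hG2 n N x₀ L u t₀ hu
  have hGI := hG0 n N x₀ L u t₀ hu
  have hn1 := (hG1 n N x₀ L u t₀ hu).2.2.1
  set z₀ : EE n × ℝ := (0, t₀) with hz₀
  set Ef : EE n × ℝ → EE N := fun z =>
    ∑ k, ∑ l, (GIf x₀ L u k l z * W k z) • (L (ee l) + jg u z l) with hEf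
  have hev : F =ᶠ[𝓝 0] fun x => Ef (x, t₀) := by
    filter_upwards [hev0, (slice_tendsto (n := n) t₀).eventually h2] with x hx1 hx2
    rw [hF]
    simp only [hEf]
    refine Finset.sum_congr rfl fun k _ => Finset.sum_congr rfl fun l _ => ?_
    have e2 : dv1 (grf x₀ L u t₀) x l = L (ee l) + jg u (x, t₀) l := hx2.1 l
    rw [hx1 k, e2]
    rfl
  have hu1 : ∀ l, DifferentiableAt ℝ (fun z => jg u z l) z₀ := fun l =>
    (jg_contDiffAt (m := 2) (m' := 1)
      (contDiffAt_infty.1 hu.smooth 2) (by norm_num) l).differentiableAt (by norm_num)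
  have hGd : ∀ k l, DifferentiableAt ℝ (GIf x₀ L u k l) z₀ := fun k l =>
    (hGI k l).1.differentiableAt (by simp)
  have hG00 : ∀ k l, GIf x₀ L u k l z₀ = if k = l then 1 else 0 := fun k l => (hGI k l).2.1
  have hGg : ∀ k l i, fderiv ℝ (GIf x₀ L u k l) z₀ (ee i, 0) = 0 := fun k l i =>
    (hGI k l).2.2.1 i
  have hdu : ∀ l, jg u z₀ l = 0 := hu.du0
  have hterm : ∀ k l, HasFDerivAt
      (fun z => (GIf x₀ L u k l z * W k z) • (L (ee l) + jg u z l))
      ((GIf x₀ L u k l z₀ * W k z₀) • fderiv ℝ (fun z => jg u z l) z₀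
        + (GIf x₀ L u k l z₀ • fderiv ℝ (W k) z₀ + W k z₀ • fderiv ℝ (GIf x₀ L u k l) z₀).smulRight
          (L (ee l) + jg u z₀ l)) z₀ := by
    intro k l
    have := ((hGd k l).hasFDerivAt.mul (hWd k).hasFDerivAt).smul
      ((hu1 l).hasFDerivAt.const_add (L (ee l)))
    exact this
  have hEd : HasFDerivAt Ef (∑ k, ∑ l, ((GIf x₀ L u k l z₀ * W k z₀) • fderiv ℝ (fun z => jg u z l) z₀
        + (GIf x₀ L u k l z₀ • fderiv ℝ (W k) z₀ + W k z₀ • fderiv ℝ (GIf x₀ L u k l) z₀).smulRight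
          (L (ee l) + jg u z₀ l))) z₀ := by
    have := HasFDerivAt.fun_sum (u := Finset.univ) fun k _ =>
      HasFDerivAt.fun_sum (u := Finset.univ) fun l _ => hterm k l
    exact this
  have hEg : ∀ i, jg Ef z₀ i
      = ∑ k, (W k z₀ • jgg u z₀ i k + jg (W k) z₀ i • L (ee k)) := by
    intro i
    show fderiv ℝ Ef z₀ (ee i, 0) = _
    rw [hEd.fderiv]
    simp only [_root_.sum_apply, _root_.add_apply,
      _root_.smul_apply, ContinuousLinearMap.smulRight_apply, hGg, hdu, hG00]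
    refine Finset.sum_congr rfl fun k _ => ?_
    rw [Finset.sum_eq_single k]
    · simp [jgg, jg]
    · intro l _ hl
      simp [hl.symm]
    · simp
  have hfd : ∀ i, fderiv ℝ F 0 (ee i) = jg Ef z₀ i := by
    intro i
    have h3 : fderiv ℝ F 0 = fderiv ℝ (fun x => Ef (x, t₀)) 0 :=
      Filter.EventuallyEq.fderiv_eq hev
    rw [h3]
    exact slice_fderiv hEd.differentiableAt i
  have hd0 : ∀ l, dv1 (grf x₀ L u t₀) 0 l = L (ee l) := by
    intro l
    have := h2.self_of_nhds.1 l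
    simp only [hz₀] at this hdu
    rw [this, hdu, add_zero]
  have hg0 : ∀ i j, (gram (grf x₀ L u t₀) 0)⁻¹ i j = if i = j then 1 else 0 := hG00
  constructor
  · have h7 : F 0 = Ef z₀ := hev.self_of_nhds
    rw [h7]
    simp only [hEf, hG00, hdu, add_zero]
    refine Finset.sum_congr rfl fun k _ => ?_
    rw [Finset.sum_eq_single k]
    · rw [if_pos rfl, one_mul]
    · intro l _ hl
      rw [if_neg hl.symm, zero_mul, zero_smul]
    · simp
  · unfold dvc
    refine Finset.sum_congr rfl fun i _ => ?_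
    rw [Finset.sum_eq_single i]
    · rw [hg0, if_pos rfl, one_mul, hfd, hEg, hd0, sum_inner]
      rw [Finset.sum_eq_single i]
      · rw [inner_add_left, inner_smul_left, inner_smul_left, hn1, inner_ee]
        simp
      · intro k _ hk
        rw [inner_add_left, inner_smul_left, inner_smul_left, hn1, inner_ee]
        simp [hk]
      · simp
    · intro j _ hj
      rw [hg0, if_neg hj.symm, zero_mul]
    · simp

theorem hGC (hCR : StCR) (hWJ : StWJ) (hUJ : StUJ) (hG0 : StG0) (hG1 : StG1)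
    (hG2 : StG2) (hG7 : StG7) (hG8 : StG8) (hG9 : StG9) (hGH : StGH) : StGC := by
  intro n N x₀ L u t₀ hu A T ν v hj κ l c hc
  obtain ⟨hA, hT, hv, hν⟩ := hj
  have hj : IsJet x₀ L u t₀ A T ν v := ⟨hA, hT, hv, hν⟩
  obtain ⟨hXs, hX0, hXg, hXh⟩ := hG7 n N x₀ L u t₀ hu A T hA hT
  obtain ⟨hYs, hY0, hYg, hYh⟩ := hG8 n N x₀ L u t₀ hu A T hA hT
  obtain ⟨hZs, hZ0, hZg, hZh⟩ := hG9 n N x₀ L u t₀ hu A T hA hT
  obtain ⟨hWs, hW0, hWg, hWh⟩ := hWJ n N x₀ L u t₀ hu A T ν v hj l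
  obtain ⟨hUs, hU0, hUg⟩ := hUJ n N x₀ L u t₀ hu A T hA hT
  obtain ⟨hHs, hH0, hHg, -, hAf⟩ := hGH n N x₀ L u t₀ hu A T hA hT
  have h2 := hG2 n N x₀ L u t₀ hu
  have hGI := hG0 n N x₀ L u t₀ hu
  obtain ⟨hSA, hST, hAn, hTn⟩ := hG1 n N x₀ L u t₀ hu
  rw [← hA] at hSA hAn
  rw [← hT] at hST hTn
  set z₀ : EE n × ℝ := (0, t₀) with hz₀
  -- the tuples
  set W2 : EE n × ℝ → ℝ := fun z => ‖Wlf l x₀ L u z‖ ^ 2 with hW2
  have hW2s : ContDiffAt ℝ 3 W2 z₀ :=
    (contDiffAt_infty.1 hWs 3).norm_sq ℝ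
  have c32 : (2 : WithTop ℕ∞) ≤ 3 := by norm_num
  set p3 : EE n × ℝ → ℝ × ℝ × ℝ := fun z => (Xf x₀ L u z, Yf x₀ L u z, Zf x₀ L u z) with hp3
  set p4 : EE n × ℝ → ℝ × ℝ × ℝ × ℝ :=
    fun z => (Xf x₀ L u z, Yf x₀ L u z, Zf x₀ L u z, W2 z) with hp4
  have hp4' : p4 = i4f l x₀ L u := rfl
  have hXd := hXs.differentiableAt (by norm_num)
  have hYd := hYs.differentiableAt (by norm_num)
  have hZd := hZs.differentiableAt (by norm_num)
  have hW2d := hW2s.differentiableAt (by norm_num)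
  have hp3s : ContDiffAt ℝ 3 p3 z₀ := hXs.prodMk (hYs.prodMk hZs)
  have hp4s : ContDiffAt ℝ 3 p4 z₀ := hXs.prodMk (hYs.prodMk (hZs.prodMk hW2s))
  have hp30 : p3 z₀ = J3 A := by simp only [hp3, hX0, hY0, hZ0, J3]
  have hp40 : p4 z₀ = J4 l A ν := by simp only [hp4, hX0, hY0, hZ0, J4, hW2, hW0]
  have hp3g : ∀ k, jg p3 z₀ k = g3 A T k := by
    intro k
    simp only [hp3]
    rw [jg_pair hXd (hYd.prodMk hZd), jg_pair hYd hZd, hXg, hYg, hZg]
    rfl
  have hp4g : ∀ k, jg p4 z₀ k = g4 l A T ν v k := by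
    intro k
    simp only [hp4]
    rw [jg_pair hXd (hYd.prodMk (hZd.prodMk hW2d)), jg_pair hYd (hZd.prodMk hW2d),
      jg_pair hZd hW2d, hXg, hYg, hZg, hWg]
    rfl
  have hp4h : jh p4 z₀ = h4 l A T ν v := by
    simp only [hp4]
    rw [jh_pair (hXs.of_le c32) ((hYs.prodMk (hZs.prodMk hW2s)).of_le c32),
      jh_pair (hYs.of_le c32) ((hZs.prodMk hW2s).of_le c32),
      jh_pair (hZs.of_le c32) (hW2s.of_le c32), hXh, hYh, hZh, hWh]
    rfl
  -- coefficient functions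
  have hcomp : ∀ a : ℝ × ℝ × ℝ → ℝ, ContDiff ℝ ∞ a →
      DifferentiableAt ℝ (fun z => a (p3 z)) z₀ ∧
      ∀ k, jg (fun z => a (p3 z)) z₀ k = fderiv ℝ a (J3 A) (g3 A T k) := by
    intro a ha
    have ha2 : ContDiff ℝ 2 a := contDiff_infty.1 ha 2
    have := hCR n (ℝ × ℝ × ℝ) p3 a z₀ (hp3s.of_le c32) ha2
    refine ⟨(ha2.contDiffAt.comp z₀ (hp3s.of_le c32)).differentiableAt (by norm_num), fun k => ?_⟩
    rw [this.1 k, hp30, hp3g]
  set Φ : EE n × ℝ → ℝ := fun z => c.φ (p4 z) with hΦ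
  have hφ2 : ContDiff ℝ 2 c.φ := contDiff_infty.1 hc.sφ 2
  have hφ3 : ContDiff ℝ 3 c.φ := contDiff_infty.1 hc.sφ 3
  have hΦ3 : ContDiffAt ℝ 3 Φ z₀ := hφ3.contDiffAt.comp z₀ hp4s
  have hΦ2 : ContDiffAt ℝ 2 Φ z₀ := hΦ3.of_le c32
  have hCRφ := hCR n (ℝ × ℝ × ℝ × ℝ) p4 c.φ z₀ (hp4s.of_le c32) hφ2
  have hΦg : ∀ k, jg Φ z₀ k = gph l c A T ν v k := by
    intro k
    have := hCRφ.1 k
    rw [hp40, hp4g] at this
    exact this
  have hΦh : jh Φ z₀ = hph l c A T ν v := by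
    have := hCRφ.2.2
    simp only [hp40, hp4g, hp4h] at this
    exact this
  have hΦ1 : ∀ k, DifferentiableAt ℝ (fun z => jg Φ z k) z₀ := fun k =>
    (jg_contDiffAt (m' := 1) hΦ2 (by norm_num) k).differentiableAt (by norm_num)
  -- position and tangent vectors
  set ff : EE n × ℝ → EE N := fun z => x₀ + L z.1 + u z with hff
  set fm : Fin n → EE n × ℝ → EE N := fun m z => L (ee m) + jg u z m with hfm
  have hud : DifferentiableAt ℝ u z₀ := hu.smooth.differentiableAt (by simp)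
  have hlin : HasFDerivAt (fun z : EE n × ℝ => x₀ + L z.1)
      (L.toContinuousLinearMap.comp (ContinuousLinearMap.fst ℝ (EE n) ℝ)) z₀ :=
    ((L.toContinuousLinearMap.comp (ContinuousLinearMap.fst ℝ (EE n) ℝ)).hasFDerivAt).const_add x₀
  have hffd : DifferentiableAt ℝ ff z₀ := hlin.differentiableAt.add hud
  have hff0 : ff z₀ = x₀ := by simp [hff, hz₀, hu.u0]
  have hdu : ∀ l, jg u z₀ l = 0 := hu.du0
  have hffg : ∀ i, jg ff z₀ i = L (ee i) := by
    intro i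
    simp only [hff]
    rw [jg_add hlin.differentiableAt hud, hdu, add_zero]
    show fderiv ℝ (fun z : EE n × ℝ => x₀ + L z.1) z₀ (ee i, 0) = _
    rw [hlin.fderiv]
    rfl
  have hu1 : ∀ l, DifferentiableAt ℝ (fun z => jg u z l) z₀ := fun l =>
    (jg_contDiffAt (m := 2) (m' := 1)
      (contDiffAt_infty.1 hu.smooth 2) (by norm_num) l).differentiableAt (by norm_num)
  have hfmd : ∀ m, DifferentiableAt ℝ (fm m) z₀ := fun m => (hu1 m).const_add _
  have hfm0 : ∀ m, fm m z₀ = L (ee m) := fun m => by simp only [hfm, hdu, add_zero]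
  have hfmg : ∀ m i, jg (fm m) z₀ i = A i m := by
    intro m i
    show fderiv ℝ (fun z => L (ee m) + jg u z m) z₀ (ee i, 0) = _
    rw [fderiv_const_add, hA]
    rfl
  set q : Fin n → EE n × ℝ → ℝ := fun m z => inner ℝ (ff z) (fm m z) with hq
  have hqd : ∀ m, DifferentiableAt ℝ (q m) z₀ := fun m => hffd.inner ℝ (hfmd m)
  have hq0 : ∀ m, q m z₀ = v m := by
    intro m
    simp only [hq]
    rw [hff0, hfm0, hv]
  have hxA : ∀ i m, (inner ℝ x₀ (A i m) : ℝ) = inner ℝ ν (A i m) := by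
    intro i m
    rw [hν, inner_sub_left, sum_inner]
    rw [Finset.sum_eq_zero, sub_zero]
    intro k _
    rw [inner_smul_left, real_inner_comm, hAn, mul_zero]
  have hqg : ∀ m i, jg (q m) z₀ i = (if i = m then 1 else 0) + inner ℝ ν (A i m) := by
    intro m i
    simp only [hq]
    rw [jg_inner hffd (hfmd m), hffg, hfmg, hff0, hfm0, inner_ee, hxA]
  -- the weight
  set E : EE n × ℝ → ℝ := fun z => Real.exp (-(κ * ‖ff z‖ ^ 2 / 2)) with hE
  set E₀ : ℝ := Real.exp (-(κ * ‖x₀‖ ^ 2 / 2)) with hE₀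
  have hEeq : E = fun z => Real.exp ((-(κ / 2)) * inner ℝ (ff z) (ff z)) := by
    funext z
    simp only [hE]
    rw [real_inner_self_eq_norm_sq]
    congr 1
    ring
  have hin : DifferentiableAt ℝ (fun z => (inner ℝ (ff z) (ff z) : ℝ)) z₀ := hffd.inner ℝ hffd
  have hEd : DifferentiableAt ℝ E z₀ := by
    rw [hEeq]
    exact (hin.const_mul _).exp
  have hE0 : E z₀ = E₀ := by simp only [hE, hff0, hE₀]
  have hEg : ∀ i, jg E z₀ i = -(κ * v i) * E₀ := by
    intro i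
    have e1 : Real.exp ((-(κ / 2)) * inner ℝ (ff z₀) (ff z₀)) = E₀ := by
      rw [← hE0, hEeq]
    rw [hEeq, jg_exp (hin.const_mul _), e1, jg_cmul _ hin, jg_inner hffd hffd, hffg, hff0,
      real_inner_comm, hv]
    ring
  -- the normal field
  have hHd : DifferentiableAt ℝ (Hf x₀ L u) z₀ := hHs.differentiableAt (by simp)
  have hUd : DifferentiableAt ℝ (Uf x₀ L u) z₀ := hUs.differentiableAt (by simp)
  obtain ⟨h1d, h1g⟩ := hcomp c.a₁ hc.s₁
  obtain ⟨h2d, h2g⟩ := hcomp c.a₂ hc.s₂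
  obtain ⟨h3d, h3g⟩ := hcomp c.a₃ hc.s₃
  set Nf : EE n × ℝ → EE N := fun z =>
    c.a₁ (p3 z) • Hf x₀ L u z + c.a₃ (p3 z) • Uf x₀ L u z with hNf
  have hn1d : DifferentiableAt ℝ (fun z => c.a₁ (p3 z) • Hf x₀ L u z) z₀ := h1d.smul hHd
  have hn3d : DifferentiableAt ℝ (fun z => c.a₃ (p3 z) • Uf x₀ L u z) z₀ := h3d.smul hUd
  have hNd : DifferentiableAt ℝ Nf z₀ := hn1d.add hn3d
  have hN0 : Nf z₀ = Na c A := by simp only [hNf, hp30, hH0, hU0, Na]
  have hLs : ∀ (w : EE N), (∀ x : EE n, (inner ℝ w (L x) : ℝ) = 0) → ∀ b : Fin n → ℝ,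
      (inner ℝ (∑ a, b a • L (ee a)) w : ℝ) = 0 := by
    intro w hw b
    rw [sum_inner]
    refine Finset.sum_eq_zero fun a _ => ?_
    rw [inner_smul_left, real_inner_comm, hw, mul_zero]
  have hNg : ∀ i (w : EE N), (∀ x : EE n, (inner ℝ w (L x) : ℝ) = 0) →
      (inner ℝ (jg Nf z₀ i) w : ℝ) = inner ℝ (dNa c A T i) w := by
    intro i w hw
    simp only [hNf]
    rw [jg_add hn1d hn3d, jg_smul h1d hHd, jg_smul h3d hUd, h1g, h3g, hHg,
      hUg, hp30, hH0, hU0, dNa]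
    simp only [inner_add_left, inner_smul_left, inner_sub_left, hLs w hw, sub_zero]
    ring
  have hHn : ∀ x : EE n, (inner ℝ (Hv A) (L x) : ℝ) = 0 := by
    intro x
    rw [Hv, sum_inner]
    exact Finset.sum_eq_zero fun a _ => hAn _ _ _
  have hUn : ∀ x : EE n, (inner ℝ (Uv A) (L x) : ℝ) = 0 := by
    intro x
    rw [Uv, sum_inner]
    refine Finset.sum_eq_zero fun a _ => ?_
    rw [sum_inner]
    refine Finset.sum_eq_zero fun b _ => ?_
    rw [inner_smul_left, hAn, mul_zero]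
  have hNn : ∀ x : EE n, (inner ℝ (Na c A) (L x) : ℝ) = 0 := by
    intro x
    rw [Na, inner_add_left, inner_smul_left, inner_smul_left, hHn, hUn]
    simp
  -- the pairing with the second fundamental form
  have hAd : ∀ k a, DifferentiableAt ℝ (Af x₀ L u k a) z₀ := fun k a =>
    (hAf k a).1.differentiableAt (by simp)
  set r : Fin n → Fin n → EE n × ℝ → ℝ := fun k a z => inner ℝ (Nf z) (Af x₀ L u k a z) with hr
  have hrd : ∀ k a, DifferentiableAt ℝ (r k a) z₀ := fun k a => hNd.inner ℝ (hAd k a)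
  have hr0 : ∀ k a, r k a z₀ = inner ℝ (Na c A) (A k a) := by
    intro k a
    simp only [hr]
    rw [hN0, (hAf k a).2.1]
  have hrg : ∀ k a i, jg (r k a) z₀ i
      = inner ℝ (dNa c A T i) (A k a) + inner ℝ (Na c A) (T i k a) := by
    intro k a i
    simp only [hr]
    rw [jg_inner hNd (hAd k a), (hAf k a).2.1, hN0, hNg i _ (fun x => hAn k a x),
      (hAf k a).2.2.1 i, inner_sub_right, real_inner_comm (∑ b, _) (Na c A), hLs _ hNn, sub_zero]
  have hGd : ∀ k l, DifferentiableAt ℝ (GIf x₀ L u k l) z₀ := fun k l =>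
    (hGI k l).1.differentiableAt (by simp)
  have hG00 : ∀ k l, GIf x₀ L u k l z₀ = if k = l then 1 else 0 := fun k l => (hGI k l).2.1
  have hGg : ∀ k l i, jg (GIf x₀ L u k l) z₀ i = 0 := fun k l i =>
    (hGI k l).2.2.1 i
  set s : Fin n → EE n × ℝ → ℝ := fun k z =>
    ∑ a, ∑ m, GIf x₀ L u a m z * (r k a z * q m z) with hs
  have hrq : ∀ k a m, DifferentiableAt ℝ (fun z => r k a z * q m z) z₀ :=
    fun k a m => (hrd k a).mul (hqd m)
  have hsd1 : ∀ k a m, DifferentiableAt ℝ (fun z => GIf x₀ L u a m z * (r k a z * q m z)) z₀ :=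
    fun k a m => (hGd a m).mul (hrq k a m)
  have hsd2 : ∀ k a, DifferentiableAt ℝ
      (fun z => ∑ m, GIf x₀ L u a m z * (r k a z * q m z)) z₀ :=
    fun k a => DifferentiableAt.fun_sum fun m _ => hsd1 k a m
  have hsd : ∀ k, DifferentiableAt ℝ (s k) z₀ :=
    fun k => DifferentiableAt.fun_sum fun a _ => hsd2 k a
  have hs0 : ∀ k, s k z₀ = ∑ a, inner ℝ (Na c A) (A k a) * v a := by
    intro k
    simp only [hs, hG00, hr0, hq0]
    refine Finset.sum_congr rfl fun a _ => ?_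
    rw [Finset.sum_eq_single a]
    · simp
    · intro m _ hm
      simp [hm.symm]
    · simp
  have hsg : ∀ k i, jg (s k) z₀ i
      = ∑ a, ((inner ℝ (dNa c A T i) (A k a) + inner ℝ (Na c A) (T i k a)) * v a
        + inner ℝ (Na c A) (A k a) * ((if i = a then 1 else 0) + inner ℝ ν (A i a))) := by
    intro k i
    simp only [hs]
    rw [jg_sum (hsd2 k)]
    refine Finset.sum_congr rfl fun a _ => ?_
    rw [jg_sum (hsd1 k a), Finset.sum_eq_single a]
    · rw [jg_mul (hGd a a) (hrq k a a), hGg, hG00, jg_mul (hrd k a) (hqd a), hrg,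
        hqg, hr0, hq0]
      simp
    · intro m _ hm
      rw [jg_mul (hGd a m) (hrq k a m), hGg, hG00]
      simp [hm.symm]
    · simp
  -- the vector field `V`
  have hbd : ∀ k, DifferentiableAt ℝ (fun z => c.a₂ (p3 z) * q k z) z₀ := fun k =>
    h2d.mul (hqd k)
  set V : Fin n → EE n × ℝ → ℝ := fun k z => κ * (c.a₂ (p3 z) * q k z + s k z) with hV
  have hbs : ∀ k, DifferentiableAt ℝ (fun z => c.a₂ (p3 z) * q k z + s k z) z₀ :=
    fun k => (hbd k).add (hsd k)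
  have hVd : ∀ k, DifferentiableAt ℝ (V k) z₀ := fun k => (hbs k).const_mul κ
  have hV0 : ∀ k, V k z₀ = Va κ c A v k := by
    intro k
    simp only [hV, hs0, hq0, hp30, Va]
    ring
  have hVg : ∀ k i, jg (V k) z₀ i
      = κ * ((fderiv ℝ c.a₂ (J3 A) (g3 A T i) * v k
          + c.a₂ (J3 A) * ((if i = k then 1 else 0) + inner ℝ ν (A i k)))
        + ∑ a, ((inner ℝ (dNa c A T i) (A k a) + inner ℝ (Na c A) (T i k a)) * v a
          + inner ℝ (Na c A) (A k a) * ((if i = a then 1 else 0) + inner ℝ ν (A i a)))) := by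
    intro k i
    simp only [hV]
    rw [jg_cmul κ (hbs k), jg_add (hbd k) (hsd k), jg_mul h2d (hqd k), h2g, hqg,
      hq0, hp30, hsg]
  -- the covector
  set W : Fin n → EE n × ℝ → ℝ := fun k z => E z * (jg Φ z k + V k z) with hW
  have hgV : ∀ k, DifferentiableAt ℝ (fun z => jg Φ z k + V k z) z₀ :=
    fun k => (hΦ1 k).add (hVd k)
  have hWd : ∀ k, DifferentiableAt ℝ (W k) z₀ := fun k => hEd.mul (hgV k)
  have hWz : ∀ k, W k z₀ = E₀ * (gph l c A T ν v k + Va κ c A v k) := by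
    intro k
    simp only [hW, hE0, hΦg, hV0]
  have hWj : ∀ k i, jg (W k) z₀ i = -(κ * v i) * E₀ * (gph l c A T ν v k + Va κ c A v k)
      + E₀ * (jgg Φ z₀ i k + jg (V k) z₀ i) := by
    intro k i
    simp only [hW]
    rw [jg_mul hEd (hgV k), jg_add (hΦ1 k) (hVd k), hEg, hE0, hΦg, hV0]
    rfl
  have hΦev : ∀ᶠ z in 𝓝 z₀, DifferentiableAt ℝ Φ z := by
    filter_upwards [(hΦ2.of_le (by norm_num : (1 : WithTop ℕ∞) ≤ 2)).eventually (by norm_num)]
      with z hz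
    exact hz.differentiableAt (by norm_num)
  have hev0 : ∀ᶠ x in 𝓝 (0 : EE n), ∀ k, wc κ l c (grf x₀ L u t₀) x k = W k (x, t₀) := by
    filter_upwards [(slice_tendsto (n := n) t₀).eventually hΦev,
      (slice_tendsto (n := n) t₀).eventually h2] with x hx1 hx2 k
    have e2 : ∀ l, dv1 (grf x₀ L u t₀) x l = L (ee l) + jg u (x, t₀) l := hx2.1
    have e1 : fderiv ℝ (fun y => c.φ (i4 l (grf x₀ L u t₀) y)) x (ee k) = jg Φ (x, t₀) k :=
      slice_fderiv hx1 k
    rw [wc, e1]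
    simp only [e2]
    rfl
  obtain ⟨hr1, hr2⟩ := field hG0 hG1 hG2 hu (wc κ l c (grf x₀ L u t₀)) W hWd hev0
    (wf κ l c (grf x₀ L u t₀)) (fun x => rfl)
  constructor
  · rw [hr1, Finset.smul_sum]
    refine Finset.sum_congr rfl fun k _ => ?_
    rw [hWz, smul_smul]
  · rw [hr2]
    show ∑ i, jg (W i) z₀ i = E₀ * (jt Φ z₀ + dvA κ l c A T ν v)
    have h6 : jh Φ z₀ = jt Φ z₀ - ∑ k, jgg Φ z₀ k k := rfl
    have h7 : jt Φ z₀ = hph l c A T ν v + ∑ k, jgg Φ z₀ k k := by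
      rw [← hΦh, h6]
      ring
    have h8 : ∑ k, jg (V k) z₀ k = dVa κ c A T ν v := by
      have e1 : ∀ a, (inner ℝ (Na c A) (et T a) : ℝ) = ∑ k, inner ℝ (Na c A) (T k k a) := by
        intro a
        rw [et, inner_sum]
      have e2 : ∑ a, (inner ℝ (Na c A) (et T a) : ℝ) * v a
          = ∑ k, ∑ a, (inner ℝ (Na c A) (T k k a) : ℝ) * v a := by
        rw [Finset.sum_comm]
        refine Finset.sum_congr rfl fun a _ => ?_
        rw [e1, Finset.sum_mul]
      rw [dVa, e2]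
      simp only [hVg]
      rw [← Finset.mul_sum, ← Finset.sum_add_distrib, ← Finset.sum_add_distrib]
      congr 1
      refine Finset.sum_congr rfl fun k _ => ?_
      rw [← Finset.sum_add_distrib]
      have e3 : ∑ a, (((inner ℝ (dNa c A T k) (A k a) : ℝ) + inner ℝ (Na c A) (T k k a)) * v a
          + inner ℝ (Na c A) (A k a) * ((if k = a then 1 else 0) + inner ℝ ν (A k a)))
          = ∑ a, ((inner ℝ (dNa c A T k) (A k a) : ℝ) * v a
          + inner ℝ (Na c A) (A k a) * ((if k = a then 1 else 0) + inner ℝ ν (A k a))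
          + inner ℝ (Na c A) (T k k a) * v a) :=
        Finset.sum_congr rfl fun a _ => by ring
      rw [e3, if_pos trivial]
      ring
    simp only [hWj]
    rw [Finset.sum_add_distrib, ← Finset.mul_sum, Finset.sum_add_distrib, h8, h7, dvA]
    have h9 : ∑ i, -(κ * v i) * E₀ * (gph l c A T ν v i + Va κ c A v i)
        = E₀ * (- κ * (∑ k, v k * gph l c A T ν v k) - κ * ∑ k, v k * Va κ c A v k) := by
      rw [Finset.mul_sum, Finset.mul_sum, ← Finset.sum_sub_distrib, Finset.mul_sum]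
      exact Finset.sum_congr rfl fun k _ => by ring
    rw [h9]
    ring

end Pool.Agent.Helper62.CL
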